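import Mathlib

/-!
# Monochromatic tree uniformization and stationary antichains

Assume CH.  If `T` is an Aronszajn tree and, for some ladder system `C`, every monochromatic
colouring of `C` with colours in `ℕ` has a `T`-uniformization, then `T` contains a stationary
antichain.

The proof uses the weak diamond principle of Devlin and Shelah, which is proved below from
`2 ^ ℵ₀ < 2 ^ ℵ₁`.
-/

open Cardinal Ordinal Set

namespace Pool.Agent.Results.MP_807794_lc.StationaryAntichain

universe u v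

/-- the set of countable ordinals, as a well-ordered type -/
abbrev W : Type 1 := Set.Iio (Ordinal.omega.{0} 1)

theorem isSuccLimit_om1 : Order.IsSuccLimit (Ordinal.omega.{0} 1) := isSuccLimit_omega 1

instance : NoMaxOrder W where
  exists_gt a := ⟨⟨Order.succ a.1, isSuccLimit_om1.succ_lt a.2⟩, Order.lt_succ a.1⟩

instance : Nonempty W := ⟨⟨0, omega_pos 1⟩⟩

theorem cof_W : Order.cof W = ℵ_ 1 := by
  rw [Ordinal.cof_Iio]
  simp [Cardinal.cof_omega_one]

theorem cof_W_ne : Order.cof W ≠ ℵ₀ := by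
  rw [cof_W]
  exact aleph0_lt_aleph_one.ne'

theorem mk_W : #W = ℵ_ 1 := by
  rw [Cardinal.mk_Iio_ordinal, card_omega]
  simp

/-- next element of a set -/
noncomputable def nxt (E : Set W) (δ : W) : W :=
  open Classical in
  if h : {x | x ∈ E ∧ δ < x}.Nonempty then wellFounded_lt.min {x | x ∈ E ∧ δ < x} h else δ

theorem exists_gt_mem {E : Set W} (hE : IsClub E) (δ : W) : {x | x ∈ E ∧ δ < x}.Nonempty := by
  obtain ⟨γ, hγ⟩ := exists_gt δ
  obtain ⟨x, hx, hle⟩ := hE.isCofinal γ
  exact ⟨x, hx, hγ.trans_le hle⟩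

theorem nxt_mem {E : Set W} (hE : IsClub E) (δ : W) : nxt E δ ∈ E := by
  unfold nxt
  rw [dif_pos (exists_gt_mem hE δ)]
  exact (wellFounded_lt.min_mem _ (exists_gt_mem hE δ)).1

theorem lt_nxt {E : Set W} (hE : IsClub E) (δ : W) : δ < nxt E δ := by
  unfold nxt
  rw [dif_pos (exists_gt_mem hE δ)]
  exact (wellFounded_lt.min_mem _ (exists_gt_mem hE δ)).2

theorem nxt_le {E : Set W} (hE : IsClub E) (δ : W) {x : W} (hx : x ∈ E) (h : δ < x) :
    nxt E δ ≤ x := by
  unfold nxt
  rw [dif_pos (exists_gt_mem hE δ)]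
  exact not_lt.1 (wellFounded_lt.not_lt_min (s := {x | x ∈ E ∧ δ < x}) (And.intro hx h))

theorem mk_arrow_le {α : Type u} {β : Type v} (hα : Countable α) (h : #β ≤ 𝔠) :
    #(α → β) ≤ 𝔠 := by
  rw [mk_arrow]
  have h1 : Cardinal.lift.{u} #β ≤ 𝔠 := by
    rw [← lift_continuum.{u, v}]
    exact Cardinal.lift_le.2 h
  have h2 : Cardinal.lift.{v} #α ≤ ℵ₀ := by
    rw [Cardinal.lift_le_aleph0]
    exact Cardinal.mk_le_aleph0_iff.2 hα
  calc Cardinal.lift.{u} #β ^ Cardinal.lift.{v} #α ≤ 𝔠 ^ Cardinal.lift.{v} #α :=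
        Cardinal.power_le_power_right h1
    _ ≤ 𝔠 ^ ℵ₀ := Cardinal.power_le_power_left continuum_ne_zero h2
    _ = 𝔠 := continuum_power_aleph0

theorem countable_below (δ : W) : Countable {β : W // β < δ} := by
  have h3 : δ.1.card ≤ ℵ₀ := by
    have h' : δ.1.card < ℵ_ 1 := lt_ord.1 (by rw [ord_aleph]; exact δ.2)
    rw [← succ_aleph0] at h'
    exact Order.lt_succ_iff.1 h'
  have h4 : Countable (Set.Iio δ.1) := by
    rw [← Cardinal.mk_le_aleph0_iff, Cardinal.mk_Iio_ordinal, Cardinal.lift_le_aleph0]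
    exact h3
  exact Function.Injective.countable (f := fun β : {β : W // β < δ} => (⟨β.1.1, β.2⟩ : Set.Iio δ.1))
    (fun a b h => by
      have h' : a.1.1 = b.1.1 := by
        have := Subtype.ext_iff.1 h
        exact this
      exact Subtype.ext (Subtype.ext h'))

section

variable {X V : Type} (ρ : X → Ordinal.{0})

/-- The type of codes: a countable ordinal together with the restrictions of two
functions below it. -/
def Code (V : Type) (ρ : X → Ordinal.{0}) : Type 1 :=
  Σ η : W, (ℕ → {x : X // ρ x < η.1} → V) × ({β : W // β < η} → ℕ → Bool)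

/-- The smaller type of codes. -/
def Code' (V : Type) (ρ : X → Ordinal.{0}) : Type 1 :=
  Σ η : W, (ℕ → ℕ → {x : X // ρ x < η.1} → V)

theorem mk_code_le (hX : ∀ δ : W, Countable {x // ρ x < δ.1}) (hV : #V ≤ 𝔠) :
    #(Code V ρ) ≤ 𝔠 := by
  unfold Code
  rw [mk_sigma]
  have h1 : ∀ η : W, #((ℕ → {x : X // ρ x < η.1} → V) × ({β : W // β < η} → ℕ → Bool)) ≤
      (𝔠 : Cardinal.{1}) := by
    intro η
    have e1 : #(ℕ → {x : X // ρ x < η.1} → V) ≤ 𝔠 :=
      mk_arrow_le inferInstance (mk_arrow_le (hX η) hV)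
    have e2 : #({β : W // β < η} → ℕ → Bool) ≤ 𝔠 :=
      mk_arrow_le (countable_below η) (by simp)
    rw [mk_prod]
    calc _ ≤ Cardinal.lift.{1, 0} 𝔠 * Cardinal.lift.{0, 1} 𝔠 :=
          mul_le_mul' (Cardinal.lift_le.2 e1) (Cardinal.lift_le.2 e2)
      _ = 𝔠 := by simp
  calc _ ≤ sum (fun _ : W => (𝔠 : Cardinal.{1})) := sum_le_sum _ _ h1
    _ = #W * 𝔠 := by simp
    _ ≤ 𝔠 * 𝔠 := by
        rw [mk_W]
        exact mul_le_mul' aleph_one_le_continuum le_rfl
    _ = 𝔠 := by simp

theorem mk_code'_le (hX : ∀ δ : W, Countable {x // ρ x < δ.1}) (hV : #V ≤ 𝔠) :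
    #(Code' V ρ) ≤ 𝔠 := by
  unfold Code'
  rw [mk_sigma]
  have h1 : ∀ η : W, #(ℕ → ℕ → {x : X // ρ x < η.1} → V) ≤ 𝔠 := by
    intro η
    exact mk_arrow_le inferInstance (mk_arrow_le inferInstance (mk_arrow_le (hX η) hV))
  calc _ ≤ sum (fun _ : W => (𝔠 : Cardinal.{0})) := sum_le_sum _ _ h1
    _ = #W * 𝔠 := by simp
    _ ≤ 𝔠 * 𝔠 := by
        rw [mk_W]
        exact mul_le_mul' aleph_one_le_continuum le_rfl
    _ = 𝔠 := by simp

/-- a coding function -/
theorem exists_code (hX : ∀ δ : W, Countable {x // ρ x < δ.1}) (hV : #V ≤ 𝔠) :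
    ∃ code : W → (ℕ → X → V) → (W → ℕ → Bool) → (ℕ → Bool),
      ∀ (η η' : W) (H H' : ℕ → X → V) (G G' : W → ℕ → Bool),
        code η H G = code η' H' G' →
          η = η' ∧ (∀ i x, ρ x < η.1 → H i x = H' i x) ∧ (∀ β, β < η → G β = G' β) := by
  have hle : Cardinal.lift.{0} #(Code V ρ) ≤ Cardinal.lift.{1} #(ℕ → Bool) := by
    have : #(ℕ → Bool) = 𝔠 := by simp
    rw [this]
    simpa using mk_code_le ρ hX hV
  obtain ⟨e⟩ := Cardinal.lift_mk_le'.1 hle
  refine ⟨fun η H G => e ⟨η, (fun i x => H i x.1), (fun β => G β.1)⟩, ?_⟩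
  intro η η' H H' G G' h
  have h2 := e.injective h
  obtain rfl : η = η' := congrArg Sigma.fst h2
  refine ⟨rfl, ?_, ?_⟩
  · intro i x hx
    have h3 := (Sigma.mk.inj_iff.1 h2).2
    have h4 := congrArg Prod.fst (eq_of_heq h3)
    have h5 := congrFun (congrFun h4 i) ⟨x, hx⟩
    exact h5
  · intro β hβ
    have h3 := (Sigma.mk.inj_iff.1 h2).2
    have h4 := congrArg Prod.snd (eq_of_heq h3)
    have h5 := congrFun h4 ⟨β, hβ⟩
    exact h5

end

/-! ### The weak diamond -/

section

variable {X V : Type}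

/-- One step of the construction: a function `G` and a club `E`. -/
structure St where
  G : W → ℕ → Bool
  E : Set W

/-- the sequence of functions and clubs -/
noncomputable def seq (wh : (W → Bool) → X → V) (wE : (W → Bool) → Set W)
    (code : W → (ℕ → X → V) → (W → ℕ → Bool) → (ℕ → Bool)) (g : W → Bool) : ℕ → St
  | 0 => ⟨fun δ _ => g δ, ⋂ _ : ℕ, wE g⟩
  | n + 1 =>
    let s := seq wh wE code g n
    let G' : W → ℕ → Bool := fun δ => code (nxt s.E δ) (fun i => wh (fun β => s.G β i)) s.G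
    ⟨G', s.E ∩ ⋂ i : ℕ, wE (fun δ => G' δ i)⟩

theorem weak_diamond (ρ : X → Ordinal.{0}) (hX : ∀ δ : W, Countable {x // ρ x < δ.1})
    (hV : #V ≤ 𝔠) (h2 : (𝔠 : Cardinal.{1}) < 2 ^ (ℵ_ 1 : Cardinal.{1}))
    (F : W → (X → V) → Bool)
    (hF : ∀ (δ : W) (h h' : X → V), (∀ x, ρ x < δ.1 → h x = h' x) → F δ h = F δ h') :
    ∃ g : W → Bool, ∀ (h : X → V) (E : Set W), IsClub E → ∃ δ ∈ E, F δ h ≠ g δ := by
  by_contra hcon
  push Not at hcon
  choose wh wE hclub hwE using hcon
  obtain ⟨code, hcode⟩ := exists_code ρ hX hV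
  let S : (W → Bool) → ℕ → St := seq wh wE code
  let H : (W → Bool) → ℕ → ℕ → X → V := fun g n i => wh (fun β => (S g n).G β i)
  -- basic facts
  have hE_sub : ∀ g n, (S g n).E ⊆ ⋂ i : ℕ, wE (fun δ => (S g n).G δ i) := by
    intro g n
    cases n with
    | zero => exact fun x hx => hx
    | succ n => exact fun x hx => hx.2
  have hE_club : ∀ g n, IsClub (S g n).E := by
    intro g n
    induction n with
    | zero => exact IsClub.iInter_of_countable cof_W_ne (fun _ => hclub _)
    | succ n ih => exact ih.inter cof_W_ne (IsClub.iInter_of_countable cof_W_ne (fun _ => hclub _))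
  have hE_anti1 : ∀ g n, (S g (n + 1)).E ⊆ (S g n).E := by
    intro g n x hx
    exact hx.1
  have hE_anti : ∀ g m n, m ≤ n → (S g n).E ⊆ (S g m).E := by
    intro g m n hmn
    induction hmn with
    | refl => exact fun x hx => hx
    | step _ ih => exact fun x hx => ih (hE_anti1 g _ hx)
  have hFH : ∀ g n δ, δ ∈ (S g n).E → ∀ i, F δ (H g n i) = (S g n).G δ i := by
    intro g n δ hδ i
    have := hE_sub g n hδ
    rw [Set.mem_iInter] at this
    exact hwE _ δ (this i)
  have hGsucc : ∀ g n δ, (S g (n + 1)).G δ = code (nxt (S g n).E δ) (H g n) (S g n).G := by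
    intro g n δ
    rfl
  have hG0 : ∀ g δ i, (S g 0).G δ i = g δ := by
    intro g δ i
    rfl
  let C : (W → Bool) → Set W := fun g => ⋂ n, (S g n).E
  have hC : ∀ g, IsClub (C g) := fun g => IsClub.iInter_of_countable cof_W_ne (hE_club g)
  -- decoding
  have hdec : ∀ g g' n δ, δ ∈ (S g (n + 1)).E → δ ∈ (S g' (n + 1)).E →
      (∀ i x, ρ x < δ.1 → H g (n + 1) i x = H g' (n + 1) i x) →
      nxt (S g n).E δ = nxt (S g' n).E δ ∧
      (∀ i x, ρ x < (nxt (S g n).E δ).1 → H g n i x = H g' n i x) ∧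
      (∀ β, β < nxt (S g n).E δ → (S g n).G β = (S g' n).G β) := by
    intro g g' n δ h1 h2 h3
    have e : (S g (n + 1)).G δ = (S g' (n + 1)).G δ := by
      funext i
      rw [← hFH g (n + 1) δ h1 i, ← hFH g' (n + 1) δ h2 i]
      exact hF δ _ _ (h3 i)
    rw [hGsucc, hGsucc] at e
    exact hcode _ _ _ _ _ _ e
  let Z : (W → Bool) → (W → Bool) → Set W := fun g g' =>
    {δ | δ ∈ C g ∧ δ ∈ C g' ∧ ∀ n i x, ρ x < δ.1 → H g n i x = H g' n i x}
  have hstep : ∀ g g' δ, δ ∈ Z g g' → ∃ δ' ∈ Z g g', δ < δ' := by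
    intro g g' δ hδ
    obtain ⟨hδ1, hδ2, hδ3⟩ := hδ
    have hm1 : ∀ n, δ ∈ (S g n).E := fun n => Set.mem_iInter.1 hδ1 n
    have hm2 : ∀ n, δ ∈ (S g' n).E := fun n => Set.mem_iInter.1 hδ2 n
    let η : ℕ → W := fun n => nxt (S g n).E δ
    have hη' : ∀ n, η n = nxt (S g' n).E δ := fun n =>
      (hdec g g' n δ (hm1 _) (hm2 _) (hδ3 (n + 1))).1
    have hηE : ∀ n, η n ∈ (S g n).E := fun n => nxt_mem (hE_club g n) δ
    have hηE' : ∀ n, η n ∈ (S g' n).E := fun n => by
      rw [hη' n]; exact nxt_mem (hE_club g' n) δ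
    have hηmono : Monotone η := by
      apply monotone_nat_of_le_succ
      intro n
      exact nxt_le (hE_club g n) δ (hE_anti1 g n (hηE (n + 1))) (lt_nxt (hE_club g (n + 1)) δ)
    have hagree : ∀ k n i x, ρ x < (η (n + k)).1 → H g n i x = H g' n i x := by
      intro k
      induction k with
      | zero =>
        intro n
        exact (hdec g g' n δ (hm1 _) (hm2 _) (hδ3 (n + 1))).2.1
      | succ k ih =>
        intro n i x hx
        have e : n + (k + 1) = n + 1 + k := by omega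
        rw [e] at hx
        have hd := hdec g g' n (η (n + 1 + k))
          (hE_anti g (n + 1) (n + 1 + k) (by omega) (hηE _))
          (hE_anti g' (n + 1) (n + 1 + k) (by omega) (hηE' _))
          (fun i x hx => ih (n + 1) i x hx)
        refine hd.2.1 i x (hx.trans ?_)
        exact lt_nxt (hE_club g n) (η (n + 1 + k))
    -- the supremum
    have hsup : (⨆ n, (η n).1) < Ordinal.omega.{0} 1 := Ordinal.iSup_lt_omega_one (fun n => (η n).2)
    let δ' : W := ⟨⨆ n, (η n).1, hsup⟩
    have hle : ∀ n, η n ≤ δ' := fun n => Ordinal.le_iSup (fun n => (η n).1) n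
    have hlub : ∀ m, IsLUB (η '' Set.Ici m) δ' := by
      intro m
      constructor
      · rintro _ ⟨n, -, rfl⟩
        exact hle n
      · intro b hb
        have : ∀ n, (η n).1 ≤ b.1 := by
          intro n
          have h1 : η n ≤ η (max n m) := hηmono (le_max_left _ _)
          have h2 : η (max n m) ≤ b := hb ⟨max n m, Set.mem_Ici.2 (le_max_right _ _), rfl⟩
          exact h1.trans h2
        exact Ordinal.iSup_le this
    refine ⟨δ', ⟨?_, ?_, ?_⟩, (lt_nxt (hE_club g 0) δ).trans_le (hle 0)⟩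
    · refine Set.mem_iInter.2 (fun m => ?_)
      refine (hE_club g m).isLUB_mem (t := η '' Set.Ici m) ?_ ⟨η m, m, Set.mem_Ici.2 le_rfl, rfl⟩ (hlub m)
      rintro _ ⟨n, hn, rfl⟩
      exact hE_anti g m n hn (hηE n)
    · refine Set.mem_iInter.2 (fun m => ?_)
      refine (hE_club g' m).isLUB_mem (t := η '' Set.Ici m) ?_ ⟨η m, m, Set.mem_Ici.2 le_rfl, rfl⟩ (hlub m)
      rintro _ ⟨n, hn, rfl⟩
      exact hE_anti g' m n hn (hηE' n)
    · intro n i x hx
      obtain ⟨j, hj⟩ := (Ordinal.lt_iSup_iff).1 hx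
      refine hagree j n i x (hj.trans_le ?_)
      exact hηmono (by omega)
  have hcof : ∀ g g', (Z g g').Nonempty → ∀ β, ∃ δ ∈ Z g g', β ≤ δ := by
    intro g g' hne β
    by_contra hno
    push Not at hno
    -- the least upper bound of Z
    have hub : {b : W | ∀ δ ∈ Z g g', δ ≤ b}.Nonempty := ⟨β, fun δ hδ => (hno δ hδ).le⟩
    let b := wellFounded_lt.min _ hub
    have hb1 : ∀ δ ∈ Z g g', δ ≤ b := wellFounded_lt.min_mem _ hub
    have hb2 : ∀ c, (∀ δ ∈ Z g g', δ ≤ c) → b ≤ c := fun c hc =>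
      not_lt.1 (wellFounded_lt.not_lt_min (s := {b : W | ∀ δ ∈ Z g g', δ ≤ b}) hc)
    have hlub : IsLUB (Z g g') b := ⟨hb1, hb2⟩
    have hbZ : b ∈ Z g g' := by
      refine ⟨(hC g).isLUB_mem (fun x hx => hx.1) hne hlub,
        (hC g').isLUB_mem (fun x hx => hx.2.1) hne hlub, ?_⟩
      intro n i x hx
      have hx' : ρ x < Ordinal.omega.{0} 1 := hx.trans b.2
      have : ¬ (∀ δ ∈ Z g g', δ ≤ (⟨ρ x, hx'⟩ : W)) := fun hc => by
        have := hb2 _ hc
        exact absurd hx (not_lt.2 this)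
      push Not at this
      obtain ⟨δ, hδ, hlt⟩ := this
      exact hδ.2.2 n i x hlt
    obtain ⟨δ', hδ', hlt⟩ := hstep g g' b hbZ
    exact absurd (hb1 δ' hδ') (not_le.2 hlt)
  -- the injection
  let mn : (W → Bool) → W := fun g => wellFounded_lt.min (C g) (hC g).nonempty
  have hmn : ∀ g, mn g ∈ C g := fun g => wellFounded_lt.min_mem _ _
  let Φ : (W → Bool) → Code' V ρ := fun g => ⟨mn g, fun n i x => H g n i x.1⟩
  have hinj : Function.Injective Φ := by
    intro g g' h
    have h1 : mn g = mn g' := congrArg Sigma.fst h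
    have h3 : ∀ n i x, ρ x < (mn g).1 → H g n i x = H g' n i x := by
      intro n i x hx
      have h2 := (Sigma.mk.inj_iff.1 h).2
      have : ∀ (δ δ' : W) (e : δ = δ') (f : ℕ → ℕ → {x : X // ρ x < δ.1} → V)
          (f' : ℕ → ℕ → {x : X // ρ x < δ'.1} → V), HEq f f' → ∀ n i x (hx : ρ x < δ.1)
          (hx' : ρ x < δ'.1), f n i ⟨x, hx⟩ = f' n i ⟨x, hx'⟩ := by
        intro δ δ' e f f' hff n i x hx hx'
        subst e
        rw [eq_of_heq hff]
      exact this _ _ h1 _ _ h2 n i x hx (h1 ▸ hx)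
    have hne : (Z g g').Nonempty := ⟨mn g, hmn g, by rw [h1]; exact hmn g', h3⟩
    funext β
    obtain ⟨δ, hδ, hβ⟩ := hcof g g' hne β
    have hd := hdec g g' 0 δ (Set.mem_iInter.1 hδ.1 1) (Set.mem_iInter.1 hδ.2.1 1) (hδ.2.2 1)
    have := hd.2.2 β (hβ.trans_lt (lt_nxt (hE_club g 0) δ))
    have h5 := congrFun this 0
    rw [hG0, hG0] at h5
    exact h5
  have hle : #(W → Bool) ≤ 𝔠 := (mk_le_of_injective hinj).trans (mk_code'_le ρ hX hV)
  have he : #(W → Bool) = 2 ^ (ℵ_ 1 : Cardinal.{1}) := by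
    rw [mk_arrow, mk_W]
    simp
  rw [he] at hle
  exact absurd h2 (not_lt.2 hle)

end

/-! ### Trees -/

/-- A tree is a partially ordered set in which the set of predecessors of every node is
well-ordered. -/
class IsTree (T : Type) [PartialOrder T] : Prop where
  wo : ∀ t : T, IsWellOrder (Set.Iio t) (· < ·)

attribute [instance] IsTree.wo

section Tree

variable {T : Type} [PartialOrder T] [IsTree T]

/-- The height of a node is the order type of its set of predecessors. -/
noncomputable def ht (t : T) : Ordinal.{0} := Ordinal.type (α := Set.Iio t) (· < ·)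

theorem typein_eq_ht {u t : T} (h : u < t) :
    Ordinal.typein (α := Set.Iio t) (· < ·) ⟨u, h⟩ = ht u := by
  rw [← Ordinal.type_subrel]
  unfold ht
  refine RelIso.ordinalType_congr ?_
  refine ⟨⟨fun x => ⟨x.1.1, x.2⟩, fun y => ⟨⟨y.1, lt_trans y.2 h⟩, y.2⟩, ?_, ?_⟩, ?_⟩
  · intro x; rfl
  · intro y; rfl
  · intro x y; rfl

theorem ht_lt {u t : T} (h : u < t) : ht u < ht t := by
  rw [← typein_eq_ht h]
  exact Ordinal.typein_lt_type (α := Set.Iio t) (· < ·) ⟨u, h⟩

theorem exists_ht {t : T} {δ : Ordinal.{0}} (h : δ < ht t) : ∃ u < t, ht u = δ := by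
  obtain ⟨x, hx⟩ := Ordinal.typein_surj (α := Set.Iio t) (· < ·) h
  refine ⟨x.1, x.2, ?_⟩
  rw [← typein_eq_ht (u := x.1) (t := t) x.2]
  exact hx

end Tree

/-- An Aronszajn tree: a tree of height `ω₁` (every node has height below `ω₁`, and every level
below `ω₁` is non-empty) with countable levels and no uncountable branch (equivalently, every
chain is countable). -/
structure IsAronszajn (T : Type) [PartialOrder T] [IsTree T] : Prop where
  ht_lt : ∀ t : T, ht t < ω_ 1
  level_nonempty : ∀ α < ω_ 1, ∃ t : T, ht t = α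
  level_countable : ∀ α : Ordinal.{0}, {t : T | ht t = α}.Countable
  chain_countable : ∀ b : Set T, IsChain (· ≤ ·) b → b.Countable

/-- A ladder system: for every countable limit ordinal `α`, the set `C α` is a cofinal subset
of `α` of order type `ω`, i.e. the range of a strictly increasing sequence cofinal in `α`. -/
def IsLadderSystem (C : Ordinal.{0} → Set Ordinal.{0}) : Prop :=
  ∀ α < ω_ 1, Order.IsSuccLimit α → ∃ e : ℕ → Ordinal.{0}, StrictMono e ∧ Set.range e = C α ∧
    (∀ n, e n < α) ∧ ∀ β < α, ∃ n, β < e n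

/-- A colouring of `C` with colours in `ℕ` is a function `f`, where `f α ξ` is the colour of
`ξ ∈ C α`.  It is monochromatic if for every countable limit ordinal `α` the colour `f α ξ` is
the same for all `ξ ∈ C α`. -/
def Monochromatic (C : Ordinal.{0} → Set Ordinal.{0}) (f : Ordinal.{0} → Ordinal.{0} → ℕ) : Prop :=
  ∀ α < ω_ 1, Order.IsSuccLimit α → ∃ n, ∀ ξ ∈ C α, f α ξ = n

/-- A subtree of `T`: a non-empty downward closed set `S` such that every node of `S` has
extensions in `S` of arbitrarily large height below `ω₁`. -/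
structure IsSubtree {T : Type} [PartialOrder T] [IsTree T] (S : Set T) : Prop where
  nonempty : S.Nonempty
  lower : ∀ s ∈ S, ∀ u ≤ s, u ∈ S
  pruned : ∀ s ∈ S, ∀ β < ω_ 1, ∃ t ∈ S, s ≤ t ∧ β ≤ ht t

/-- `φ`, restricted to `S`, is a `T`-uniformization of the colouring `f` of `C`: the domain `S` is
a subtree of `T`, and for every `s ∈ S` of limit height `α`, for all but finitely many
`ξ ∈ C α`, the predecessor `u` of `s` of height `ξ` satisfies `φ u = f α ξ`. -/
def IsUniformization {T : Type} [PartialOrder T] [IsTree T] (C : Ordinal.{0} → Set Ordinal.{0})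
    (f : Ordinal.{0} → Ordinal.{0} → ℕ) (S : Set T) (φ : T → ℕ) : Prop :=
  IsSubtree S ∧ ∀ s ∈ S, Order.IsSuccLimit (ht s) →
    {ξ | ξ ∈ C (ht s) ∧ ¬ ∃ u < s, ht u = ξ ∧ φ u = f (ht s) ξ}.Finite

/-- `unif_c^ω(T, C)`: every monochromatic colouring of `C` with colours in `ℕ` has a
`T`-uniformization. -/
def UnifC (T : Type) [PartialOrder T] [IsTree T] (C : Ordinal.{0} → Set Ordinal.{0}) : Prop :=
  ∀ f, Monochromatic C f → ∃ (S : Set T) (φ : T → ℕ), IsUniformization C f S φ

/-- An antichain of `T` is stationary if the set of heights of its nodes is a stationary subset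
of `ω₁`. -/
def IsStationaryAntichain {T : Type} [PartialOrder T] [IsTree T] (A : Set T) : Prop :=
  IsAntichain (· ≤ ·) A ∧ IsStationary {δ : W | ∃ a ∈ A, ht a = δ.1}

theorem lt_om1_iff (o : Ordinal.{0}) : o < ω_ 1 ↔ o.card < ℵ_ 1 := by
  rw [← ord_aleph, lt_ord]

theorem isClub_limits : IsClub {δ : W | Order.IsSuccLimit δ.1} := by
  constructor
  · intro d hd hne _ a ha
    show Order.IsSuccLimit a.1
    rw [Ordinal.isSuccLimit_iff]
    obtain ⟨c, hc⟩ := hne
    have hc1 : Order.IsSuccLimit c.1 := hd hc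
    have hca : c ≤ a := ha.1 hc
    constructor
    · intro h0
      have h1 : c.1 ≤ a.1 := hca
      rw [h0] at h1
      have h2 : c.1 = 0 := by simpa using h1
      exact (Ordinal.isSuccLimit_iff.1 hc1).1 h2
    · rw [Order.isSuccPrelimit_iff_succ_lt]
      intro b hb
      have hbw : b < ω_ 1 := hb.trans a.2
      have hnot : ¬ (∀ x ∈ d, x ≤ (⟨b, hbw⟩ : W)) := by
        intro hall
        have : a ≤ (⟨b, hbw⟩ : W) := ha.2 hall
        exact absurd hb (not_lt.2 this)
      push Not at hnot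
      obtain ⟨x, hx, hbx⟩ := hnot
      have hx1 : Order.IsSuccLimit x.1 := hd hx
      have hxa : x.1 ≤ a.1 := ha.1 hx
      have hbx' : b < x.1 := hbx
      exact (hx1.succ_lt hbx').trans_le hxa
  · intro δ
    have h1 : δ.1 + ω < ω_ 1 := by
      rw [lt_om1_iff, card_add, card_omega0]
      exact Cardinal.add_lt_of_lt (aleph0_le_aleph 1) ((lt_om1_iff _).1 δ.2) aleph0_lt_aleph_one
    refine ⟨⟨δ.1 + ω, h1⟩, ?_, ?_⟩
    · exact Ordinal.isSuccLimit_add δ.1 isSuccLimit_omega0
    · show δ.1 ≤ δ.1 + ω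
      exact le_self_add

theorem main {T : Type} [PartialOrder T] [IsTree T]
    (h2 : (𝔠 : Cardinal.{1}) < 2 ^ (ℵ_ 1 : Cardinal.{1}))
    (hlev : ∀ α : Ordinal.{0}, {t : T | ht t = α}.Countable)
    (C : Ordinal.{0} → Set Ordinal.{0}) (hC : IsLadderSystem C)
    (hunif : UnifC T C) : ∃ A : Set T, IsStationaryAntichain A := by
  classical
  -- the guessing function
  let D : (T → Option ℕ) → W → T → Prop := fun h δ s => ht s = δ.1 ∧ ∀ u < s, (h u).isSome = true
  by_cases hT : Nonempty T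
  swap
  · obtain ⟨S, φ, hS, -⟩ := hunif (fun _ _ => 0) (fun _ _ _ => ⟨0, fun _ _ => rfl⟩)
    obtain ⟨s, -⟩ := hS.nonempty
    exact absurd ⟨s⟩ hT
  let pick : (T → Option ℕ) → W → T := fun h δ => Classical.epsilon (D h δ)
  let F : W → (T → Option ℕ) → Bool := fun δ h =>
    decide ({ξ | ξ ∈ C δ.1 ∧ ¬ ∃ u < pick h δ, ht u = ξ ∧ h u = some 1}.Finite ∧
      D h δ (pick h δ))
  have hXc : ∀ δ : W, Countable {t : T // ht t < δ.1} := by
    intro δ
    have e : {t : T | ht t < δ.1} = ⋃ β : {β : W // β < δ}, {t : T | ht t = β.1.1} := by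
      ext t
      constructor
      · intro h
        have h' : ht t < δ.1 := h
        exact Set.mem_iUnion.2 ⟨⟨⟨ht t, h'.trans δ.2⟩, h'⟩, rfl⟩
      · intro h
        obtain ⟨β, hβ⟩ := Set.mem_iUnion.1 h
        have hβ' : ht t = β.1.1 := hβ
        show ht t < δ.1
        rw [hβ']
        exact β.2
    have : Countable {β : W // β < δ} := countable_below δ
    have h3 : {t : T | ht t < δ.1}.Countable := by
      rw [e]
      exact Set.countable_iUnion (fun β => hlev _)
    exact h3.to_subtype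
  have hDeq : ∀ (δ : W) (h h' : T → Option ℕ), (∀ x, ht x < δ.1 → h x = h' x) →
      D h δ = D h' δ := by
    intro δ h h' hh
    funext s
    apply propext
    constructor
    · rintro ⟨h1, h2⟩
      exact ⟨h1, fun u hu => by rw [← hh u (h1 ▸ ht_lt hu)]; exact h2 u hu⟩
    · rintro ⟨h1, h2⟩
      exact ⟨h1, fun u hu => by rw [hh u (h1 ▸ ht_lt hu)]; exact h2 u hu⟩
  have hF : ∀ (δ : W) (h h' : T → Option ℕ), (∀ x, ht x < δ.1 → h x = h' x) →
      F δ h = F δ h' := by
    intro δ h h' hh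
    have e1 := hDeq δ h h' hh
    have e2 : pick h δ = pick h' δ := by
      show Classical.epsilon (D h δ) = Classical.epsilon (D h' δ)
      rw [e1]
    have e4 : D h δ (pick h δ) ↔ D h' δ (pick h' δ) := by rw [e1, e2]
    show decide _ = decide _
    rw [decide_eq_decide]
    by_cases hD : D h' δ (pick h' δ)
    · have e3 : {ξ | ξ ∈ C δ.1 ∧ ¬ ∃ u < pick h' δ, ht u = ξ ∧ h u = some 1} =
          {ξ | ξ ∈ C δ.1 ∧ ¬ ∃ u < pick h' δ, ht u = ξ ∧ h' u = some 1} := by
        ext ξ
        constructor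
        · rintro ⟨h1, h2⟩
          refine ⟨h1, ?_⟩
          rintro ⟨u, hu, h3, h4⟩
          exact h2 ⟨u, hu, h3, by rw [hh u (hD.1 ▸ ht_lt hu)]; exact h4⟩
        · rintro ⟨h1, h2⟩
          refine ⟨h1, ?_⟩
          rintro ⟨u, hu, h3, h4⟩
          exact h2 ⟨u, hu, h3, by rw [← hh u (hD.1 ▸ ht_lt hu)]; exact h4⟩
      rw [e4, e2, e3]
    · rw [e4]
      constructor
      · intro hh; exact absurd hh.2 hD
      · intro hh; exact absurd hh.2 hD
  have hV : #(Option ℕ) ≤ 𝔠 := by
    have : #(Option ℕ) ≤ ℵ₀ := Cardinal.mk_le_aleph0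
    exact this.trans aleph0_le_continuum
  obtain ⟨g, hg⟩ := weak_diamond (fun t : T => ht t) hXc hV h2 F hF
  -- the colouring
  let f : Ordinal.{0} → Ordinal.{0} → ℕ := fun α _ =>
    if h : α < ω_ 1 then (if g ⟨α, h⟩ = true then 1 else 0) else 0
  have hmono : Monochromatic C f := fun α hα _ => ⟨_, fun ξ _ => rfl⟩
  obtain ⟨S, φ, hS, hφ⟩ := hunif f hmono
  let A : Set T := {t | t ∉ S ∧ ∀ u < t, u ∈ S}
  refine ⟨A, ?_, ?_⟩
  · intro a ha b hb hne hle
    exact ha.1 (hb.2 a (lt_of_le_of_ne hle hne))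
  · by_contra hstat
    rw [not_isStationary_iff] at hstat
    obtain ⟨E, hE, hdisj⟩ := hstat
    -- the club of limits
    let L : Set W := {δ | Order.IsSuccLimit δ.1}
    have hL : IsClub L := isClub_limits
    let h : T → Option ℕ := fun t => if t ∈ S then some (φ t) else none
    obtain ⟨δ, hδ, hne⟩ := hg h (E ∩ L) (hE.inter cof_W_ne hL)
    apply hne
    have hδL : Order.IsSuccLimit δ.1 := hδ.2
    -- a node of height δ all of whose predecessors are in S
    have hex : ∃ s, D h δ s := by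
      obtain ⟨s0, hs0⟩ := hS.nonempty
      obtain ⟨t, ht1, -, ht2⟩ := hS.pruned s0 hs0 δ.1 δ.2
      obtain ⟨s, hs, hsδ⟩ : ∃ s ≤ t, ht s = δ.1 := by
        rcases ht2.lt_or_eq with hlt | heq
        · obtain ⟨u, hu, hu2⟩ := exists_ht hlt
          exact ⟨u, hu.le, hu2⟩
        · exact ⟨t, le_rfl, heq.symm⟩
      refine ⟨s, hsδ, fun u hu => ?_⟩
      have : u ∈ S := hS.lower t ht1 u (hu.le.trans hs)
      simp [h, this]
    have hD : D h δ (pick h δ) := Classical.epsilon_spec hex
    set s := pick h δ with hs_def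
    have hpred : ∀ u < s, u ∈ S := by
      intro u hu
      have := hD.2 u hu
      by_contra hu2
      simp [h, hu2] at this
    have hsS : s ∈ S := by
      by_contra hsS
      have hsA : s ∈ A := ⟨hsS, hpred⟩
      exact (Set.disjoint_left.1 hdisj) ⟨s, hsA, hD.1⟩ hδ.1
    have hfin := hφ s hsS (by rw [hD.1]; exact hδL)
    rw [hD.1] at hfin
    have hf : ∀ ξ, f δ.1 ξ = if g δ = true then 1 else 0 := by
      intro ξ
      have : δ.1 < ω_ 1 := δ.2
      simp only [f, dif_pos this]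
    cases hgδ : g δ
    · -- colour 0
      show decide _ = false
      rw [decide_eq_false_iff_not]
      rintro ⟨h1, -⟩
      have hinf : (C δ.1).Infinite := by
        obtain ⟨e, he1, he2, -⟩ := hC δ.1 δ.2 hδL
        rw [← he2]
        exact Set.infinite_range_of_injective he1.injective
      apply hinf
      refine (hfin.union h1).subset ?_
      intro ξ hξ
      by_contra hno
      rw [Set.mem_union, not_or] at hno
      obtain ⟨n1, n2⟩ := hno
      have m1 : ∃ u < s, ht u = ξ ∧ φ u = f δ.1 ξ := by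
        by_contra hm
        exact n1 ⟨hξ, hm⟩
      have m2 : ∃ u < s, ht u = ξ ∧ h u = some 1 := by
        by_contra hm
        exact n2 ⟨hξ, hm⟩
      obtain ⟨u, hu, hu1, hu2⟩ := m1
      obtain ⟨v, hv, hv1, hv2⟩ := m2
      have huv : u = v := by
        have i1 := typein_eq_ht hu
        have i2 := typein_eq_ht hv
        have i3 : Ordinal.typein (α := Set.Iio s) (· < ·) ⟨u, hu⟩ =
            Ordinal.typein (α := Set.Iio s) (· < ·) ⟨v, hv⟩ := by
          rw [i1, i2, hu1, hv1]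
        have i4 := Ordinal.typein_injective (α := Set.Iio s) (· < ·) i3
        exact congrArg Subtype.val i4
      subst huv
      rw [hf ξ, hgδ] at hu2
      simp [h, hpred u hu, hu2] at hv2
    · show decide _ = true
      rw [decide_eq_true_iff]
      refine ⟨hfin.subset ?_, hD⟩
      rintro ξ ⟨hξ, hno⟩
      refine ⟨hξ, ?_⟩
      rintro ⟨u, hu, hu1, hu2⟩
      apply hno
      refine ⟨u, hu, hu1, ?_⟩
      rw [hf ξ, hgδ] at hu2
      simp [h, hpred u hu, hu2]

/-- **Theorem.** Assume CH.  Let `T` be an Aronszajn tree such that for some ladder system `C`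
every monochromatic colouring of `C` with colours in `ℕ` has a `T`-uniformization.  Then `T`
contains a stationary antichain. -/
theorem result (CH : (𝔠 : Cardinal.{0}) = ℵ_ 1) (T : Type) [PartialOrder T] [IsTree T]
    (hT : IsAronszajn T) (hunif : ∃ C : Ordinal.{0} → Set Ordinal.{0},
      IsLadderSystem C ∧ UnifC T C) :
    ∃ A : Set T, IsStationaryAntichain A := by
  obtain ⟨C, hC, hu⟩ := hunif
  refine main ?_ hT.level_countable C hC hu
  have h1 : (𝔠 : Cardinal.{1}) = ℵ_ 1 := by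
    rw [← lift_continuum.{1, 0}, CH]
    simp
  rw [h1]
  exact Cardinal.cantor _

end Pool.Agent.Results.MP_807794_lc.StationaryAntichain
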